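import Pool.Agent.TH574.PZ.Grp

/-!
Large subgroups of powers of the circle are connected, and property Z.
-/

set_option autoImplicit false

namespace Pool.Agent.TH574.PZ

open Filter Topology Metric Cardinal

theorem isPreconnected_N {ι : Type} {G : AddSubgroup (ι → T)}
    (hE : ∀ C : Set ι, C.Countable → ∀ z : ι → T, ∃ g ∈ G, ∀ i ∈ C, g i = z i)
    (D : Set ι) (hD : D.Countable) : IsPreconnected {g : ι → T | g ∈ G ∧ ∀ i ∈ D, g i = 0} := by
  classical
  set N := {g : ι → T | g ∈ G ∧ ∀ i ∈ D, g i = 0} with hN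
  set K : Set (ι → T) := Set.pi Set.univ (fun i => if i ∈ D then {0} else Set.univ) with hKdef
  have hK : IsPreconnected K := by
    refine isPreconnected_univ_pi fun i => ?_
    split_ifs
    · exact isPreconnected_singleton
    · exact isPreconnected_univ
  have hK0 : ∀ k ∈ K, ∀ i ∈ D, k i = 0 := by
    intro k hk i hi
    have := hk i trivial
    simp only [if_pos hi] at this
    exact this
  have hNK : N ⊆ K := by
    intro g hg i _
    change g i ∈ (if i ∈ D then {0} else Set.univ : Set T)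
    split_ifs with hi
    · exact hg.2 i hi
    · trivial
  have hdense : K ⊆ closure N := by
    intro k hk
    rw [_root_.mem_closure_iff]
    intro o ho hko
    obtain ⟨F, O, h1, h2⟩ := isOpen_pi_iff.1 ho k hko
    obtain ⟨g, hg, hgk⟩ := hE (D ∪ (F : Set ι)) (hD.union (Finset.countable_toSet _)) k
    refine ⟨g, h2 fun i hi => ?_, hg, fun i hi => ?_⟩
    · rw [hgk i (Or.inr hi)]
      exact (h1 i hi).2
    · rw [hgk i (Or.inl hi), hK0 k hk i hi]
  rintro u v hu hv hNuv ⟨a, haN, hau⟩ ⟨b, hbN, hbv⟩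
  have hcov : K ⊆ closure (N ∩ u) ∪ closure (N ∩ v) := by
    rw [← closure_union, ← Set.inter_union_distrib_left, Set.inter_eq_left.2 hNuv]
    exact hdense
  obtain ⟨k, hkK, hku, hkv⟩ := isPreconnected_closed_iff.1 hK _ _ isClosed_closure
    isClosed_closure hcov ⟨a, hNK haN, subset_closure ⟨haN, hau⟩⟩
    ⟨b, hNK hbN, subset_closure ⟨hbN, hbv⟩⟩
  have hw : ∀ w : Set (ι → T), IsOpen w → k ∈ closure (N ∩ w) → ∀ (F : Finset ι) (n : ℕ),
      ∃ (g : ι → T) (W : Finset ι), g ∈ N ∧ (∀ i ∈ F, dist (g i) (k i) < 1 / ((n : ℝ) + 1)) ∧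
        ∀ y : ι → T, (∀ i ∈ W, y i = g i) → y ∈ w := by
    intro w hwo hkw F n
    have hop : IsOpen {g : ι → T | ∀ i ∈ F, dist (g i) (k i) < 1 / ((n : ℝ) + 1)} := by
      have hset : {g : ι → T | ∀ i ∈ F, dist (g i) (k i) < 1 / ((n : ℝ) + 1)} =
          ⋂ i ∈ F, {g : ι → T | dist (g i) (k i) < 1 / ((n : ℝ) + 1)} := by
        ext g; simp
      rw [hset]
      refine isOpen_biInter_finset fun i _ => ?_
      exact isOpen_lt ((continuous_apply i).dist continuous_const) continuous_const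
    have hmem : k ∈ {g : ι → T | ∀ i ∈ F, dist (g i) (k i) < 1 / ((n : ℝ) + 1)} := by
      intro i _
      rw [dist_self]
      positivity
    obtain ⟨g, hg1, hg2, hg3⟩ := _root_.mem_closure_iff.1 hkw _ hop hmem
    obtain ⟨W, O, h1, h2⟩ := isOpen_pi_iff.1 hwo g hg3
    refine ⟨g, W, hg2, hg1, fun y hy => h2 fun i hi => ?_⟩
    rw [hy i hi]
    exact (h1 i hi).2
  choose gu Wu hgu1 hgu2 hgu3 using hw u hu hku
  choose gv Wv hgv1 hgv2 hgv3 using hw v hv hkv
  obtain ⟨C, hDC, hCc, hCW⟩ := exists_closed_countable D hD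
    (fun F => ⋃ n, ((Wu F n : Set ι) ∪ (Wv F n : Set ι))) (fun F => Set.countable_iUnion fun n =>
      (Finset.countable_toSet _).union (Finset.countable_toSet _))
  obtain ⟨g, hg, hgk⟩ := hE C hCc k
  have hgN : g ∈ N := ⟨hg, fun i hi => by rw [hgk i (hDC hi), hK0 k hkK i hi]⟩
  have hcl : ∀ (w : Set (ι → T)) (gw : Finset ι → ℕ → (ι → T)) (Ww : Finset ι → ℕ → Finset ι),
      (∀ F n, gw F n ∈ N) →
      (∀ F n, ∀ i ∈ F, dist (gw F n i) (k i) < 1 / ((n : ℝ) + 1)) →
      (∀ F n, ∀ y : ι → T, (∀ i ∈ Ww F n, y i = gw F n i) → y ∈ w) →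
      (∀ (F : Finset ι) (n : ℕ), (F : Set ι) ⊆ C → (Ww F n : Set ι) ⊆ C) → g ∈ closure (N ∩ w) := by
    intro w gw Ww h1 h2 h3 h4
    rw [_root_.mem_closure_iff]
    intro o ho hgo
    obtain ⟨E, O, h5, h6⟩ := isOpen_pi_iff.1 ho g hgo
    have hn : ∃ n : ℕ, ∀ i ∈ E, ball (g i) (1 / ((n : ℝ) + 1)) ⊆ O i := by
      have : ∀ᶠ n : ℕ in atTop, ∀ i ∈ E, ball (g i) (1 / ((n : ℝ) + 1)) ⊆ O i := by
        rw [Filter.eventually_all_finset]
        intro i hi
        obtain ⟨ε, hε, hb⟩ := Metric.isOpen_iff.1 (h5 i hi).1 _ (h5 i hi).2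
        filter_upwards [tendsto_one_div_add_atTop_nhds_zero_nat.eventually_lt_const hε] with n hn
        exact (ball_subset_ball hn.le).trans hb
      exact this.exists
    obtain ⟨n, hn⟩ := hn
    set F := E.filter (· ∈ C) with hF
    have hFC : (F : Set ι) ⊆ C := by
      intro i hi
      exact (Finset.mem_filter.1 hi).2
    obtain ⟨y, hy, hyz⟩ := hE (C ∪ (E : Set ι)) (hCc.union (Finset.countable_toSet _))
      (fun i => if i ∈ C then gw F n i else g i)
    have hyC : ∀ i ∈ C, y i = gw F n i := by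
      intro i hi
      rw [hyz i (Or.inl hi), if_pos hi]
    refine ⟨y, h6 fun i hi => ?_, ⟨hy, fun i hi => ?_⟩, ?_⟩
    · by_cases hiC : i ∈ C
      · apply hn i hi
        rw [hyC i hiC, mem_ball, hgk i hiC]
        exact h2 F n i (Finset.mem_filter.2 ⟨hi, hiC⟩)
      · rw [hyz i (Or.inr hi), if_neg hiC]
        exact (h5 i hi).2
    · rw [hyC i (hDC hi)]
      exact (h1 F n).2 i hi
    · exact h3 F n y fun i hi => hyC i (h4 F n hFC hi)
  have hgu : g ∈ closure (N ∩ u) := hcl u gu Wu hgu1 hgu2 hgu3 fun F n hFC i hi =>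
    hCW F hFC (Set.mem_iUnion.2 ⟨n, Or.inl hi⟩)
  have hgv : g ∈ closure (N ∩ v) := hcl v gv Wv hgv1 hgv2 hgv3 fun F n hFC i hi =>
    hCW F hFC (Set.mem_iUnion.2 ⟨n, Or.inr hi⟩)
  rcases hNuv hgN with h | h
  · obtain ⟨y, hy1, hy2, hy3⟩ := _root_.mem_closure_iff.1 hgv u hu h
    exact ⟨y, hy2, hy1, hy3⟩
  · obtain ⟨y, hy1, hy2, hy3⟩ := _root_.mem_closure_iff.1 hgu v hv h
    exact ⟨y, hy2, hy3, hy1⟩

/-- the group of the example -/
noncomputable def Gp {ι : Type} (M : ι → ι → T) : AddSubgroup (ι → T) :=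
  AddMonoidHom.range (⟨⟨Phi M, Phi_zero M⟩, Phi_add M⟩ : (ι →₀ ℤ) →+ (ι → T))

theorem mem_Gp {ι : Type} (M : ι → ι → T) (x : ι → T) : x ∈ Gp M ↔ ∃ h, Phi M h = x := Iff.rfl

theorem pair_sum_left {ι κ : Type} (s : Finset κ) (χ : κ → ι →₀ ℤ) (x : ι → T) :
    pair (∑ j ∈ s, χ j) x = ∑ j ∈ s, pair (χ j) x := by
  let F : (ι →₀ ℤ) →+ T := ⟨⟨fun χ => pair χ x, pair_zero_left x⟩, fun a b => pair_add_left a b x⟩
  exact map_sum F χ s

theorem pair_zero_right {ι : Type} (χ : ι →₀ ℤ) : pair χ (0 : ι → T) = 0 := by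
  unfold pair Finsupp.sum
  exact Finset.sum_eq_zero fun i _ => smul_zero _

theorem propertyZ_of {ι : Type} (M : ι → ι → T)
    (h1 : ∀ C : Set ι, C.Countable → ∀ z : ι → T, ∃ γ, ∀ i ∈ C, M γ i = z i)
    (h2 : ∀ h : ι →₀ ℤ, h ≠ 0 → ∃ D : Set ι, D.Countable ∧
      ∀ χ : ι →₀ ℤ, χ ≠ 0 → (∀ i ∈ χ.support, i ∉ D) → pair χ (Phi M h) ≠ 0)
    (hι : ∀ C : Set ι, C.Countable → ∃ i, i ∉ C)
    (H : AddSubgroup (Gp M)) (hH : IsClosed (H : Set (Gp M)))
    (hB : TopologicalSpace.IsTopologicalBasis {s : Set H | IsClopen s}) : DiscreteTopology H := by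
  classical
  have hE : ∀ C : Set ι, C.Countable → ∀ z : ι → T, ∃ g ∈ Gp M, ∀ i ∈ C, g i = z i := by
    intro C hC z
    obtain ⟨γ, hγ⟩ := h1 C hC z
    refine ⟨M γ, ⟨Finsupp.single γ 1, ?_⟩, hγ⟩
    change Phi M (Finsupp.single γ 1) = M γ
    rw [Phi_single, one_smul]
  by_cases hbot : H = ⊥
  · subst hbot
    exact Subsingleton.discreteTopology
  exfalso
  obtain ⟨⟨x, hxH⟩, hx0⟩ := AddSubgroup.ne_bot_iff_exists_ne_zero.1 hbot
  obtain ⟨h, hh⟩ := (mem_Gp M _).1 x.2
  have hne : h ≠ 0 := by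
    rintro rfl
    apply hx0
    apply Subtype.ext
    apply Subtype.ext
    change (x : ι → T) = 0
    rw [← hh, Phi_zero]
  obtain ⟨D, hDc, hD⟩ := h2 h hne
  rw [hh] at hD
  set A : Set (ι →₀ ℤ) := {χ | pair χ (x : ι → T) = 0} with hA
  have hAc : A.Countable := by
    have : Countable D := hDc
    have hinj : Set.InjOn (fun χ : ι →₀ ℤ => Finsupp.subtypeDomain (· ∈ D) χ) A := by
      intro χ hχ χ' hχ' heq
      by_contra hne
      refine hD (χ - χ') (sub_ne_zero.2 hne) ?_ ?_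
      · intro i hi hiD
        have h3 := DFunLike.congr_fun heq ⟨i, hiD⟩
        simp only [Finsupp.subtypeDomain_apply] at h3
        rw [Finsupp.mem_support_iff, Finsupp.sub_apply, h3, sub_self] at hi
        exact hi rfl
      · rw [pair_sub_left]
        have e1 : pair χ (x : ι → T) = 0 := hχ
        have e2 : pair χ' (x : ι → T) = 0 := hχ'
        rw [e1, e2, sub_zero]
    have hc : Countable ((D : Type) →₀ ℤ) := inferInstance
    exact Set.countable_of_injective_of_countable_image hinj (Set.to_countable _)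
  set D' : Set ι := ⋃ χ ∈ A, (χ.support : Set ι) with hD'
  have hD'c : D'.Countable := hAc.biUnion fun χ _ => Finset.countable_toSet _
  set N : Set (ι → T) := {g : ι → T | g ∈ Gp M ∧ ∀ i ∈ D', g i = 0} with hN
  have hNc : IsPreconnected N := isPreconnected_N hE D' hD'c
  have hNH : ∀ g (hg : g ∈ N), (⟨g, hg.1⟩ : Gp M) ∈ H := by
    intro g hg
    have hcl : (⟨g, hg.1⟩ : Gp M) ∈ closure (H : Set (Gp M)) := by
      rw [_root_.mem_closure_iff]
      intro o ho hgo
      obtain ⟨F, O, h3, h4⟩ := open_basic ho hgo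
      have hex : ∃ ε > 0, ∀ i ∈ F, ball (g i) ε ⊆ O i := by
        have : ∀ᶠ ε : ℝ in 𝓝[>] 0, ∀ i ∈ F, ball (g i) ε ⊆ O i := by
          rw [Filter.eventually_all_finset]
          intro i hi
          obtain ⟨ε, hε, hb⟩ := Metric.isOpen_iff.1 (h3 i hi).1 _ (h3 i hi).2
          filter_upwards [Ioo_mem_nhdsGT hε] with δ hδ
          exact (ball_subset_ball hδ.2.le).trans hb
        obtain ⟨ε, h5, h6⟩ := (this.and self_mem_nhdsWithin).exists
        exact ⟨ε, h6, h5⟩
      obtain ⟨ε, hε, hball⟩ := hex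
      obtain ⟨n, hn⟩ := kronecker (I := F) (fun i => (x : ι → T) i) (fun i => g i) (by
        intro k hk
        let χ : ι →₀ ℤ := ∑ i : F, Finsupp.single (i : ι) (k i)
        have hχ : ∀ z : ι → T, pair χ z = ∑ i : F, k i • z i := by
          intro z
          change pair (∑ i : F, Finsupp.single (i : ι) (k i)) z = _
          rw [pair_sum_left]
          exact Finset.sum_congr rfl fun i _ => pair_single_left _ _ _
        have hχA : χ ∈ A := by
          change pair χ (x : ι → T) = 0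
          rw [hχ]
          exact hk
        have h5 : pair χ g = pair χ (0 : ι → T) := by
          apply pair_congr
          intro i hi
          exact hg.2 i (Set.mem_iUnion₂.2 ⟨χ, hχA, hi⟩)
        rw [← hχ g, h5, pair_zero_right]) ε hε
      refine ⟨n • x, h4 _ fun i hi => hball i hi ?_, H.zsmul_mem hxH n⟩
      rw [mem_ball]
      exact (dist_le_pi_dist _ _ (⟨i, hi⟩ : F)).trans_lt hn
    rwa [hH.closure_eq] at hcl
  set NH : Set H := {z : H | ((z : Gp M) : ι → T) ∈ N} with hNHdef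
  have hind : IsInducing (fun z : H => ((z : Gp M) : ι → T)) :=
    IsInducing.subtypeVal.comp IsInducing.subtypeVal
  have hNHc : IsPreconnected NH := by
    rw [← hind.isPreconnected_image]
    have himg : (fun z : H => ((z : Gp M) : ι → T)) '' NH = N := by
      ext g
      constructor
      · rintro ⟨z, hz, rfl⟩
        exact hz
      · intro hg
        exact ⟨⟨⟨g, hg.1⟩, hNH g hg⟩, hg, rfl⟩
    rw [himg]
    exact hNc
  obtain ⟨i, hi⟩ := hι D' hD'c
  obtain ⟨g, hg, hgz⟩ := hE (insert i D') (hD'c.insert i)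
    (fun j => if j = i then ((1 / 2 : ℝ) : T) else 0)
  have hgi : g i = ((1 / 2 : ℝ) : T) := by
    rw [hgz i (Set.mem_insert _ _), if_pos rfl]
  have hgN : g ∈ N := by
    refine ⟨hg, fun j hj => ?_⟩
    have hji : j ≠ i := fun h => hi (h ▸ hj)
    rw [hgz j (Set.mem_insert_of_mem _ hj), if_neg hji]
  set y : H := ⟨⟨g, hg⟩, hNH g hgN⟩ with hy
  have hy0 : (0 : H) ∈ {z : H | z ≠ y} := by
    intro h0
    have h3 : (0 : ι → T) = g := congrArg (fun z : H => ((z : Gp M) : ι → T)) h0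
    have h4 : g i = 0 := by rw [← h3]; rfl
    rw [hgi] at h4
    have h5 := norm_half
    rw [h4, norm_zero] at h5
    norm_num at h5
  obtain ⟨s, hs, hs0, hsy⟩ := hB.exists_subset_of_mem_open hy0 isOpen_ne
  have hsub : NH ⊆ s := hNHc.subset_isClopen hs ⟨0, ⟨(Gp M).zero_mem, fun _ _ => rfl⟩, hs0⟩
  exact hsy (hsub (show y ∈ NH from hgN)) rfl

end Pool.Agent.TH574.PZ
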