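import Pool.Agent.TH574.PZ.Mtx

/-!
Subgroups of a power of the circle that project onto every countable subpower.
-/

set_option autoImplicit false

namespace Pool.Agent.TH574.PZ

open Filter Topology Metric Cardinal

section

variable {ι : Type} {G : AddSubgroup (ι → T)}

theorem open_basic {U : Set G} (hU : IsOpen U) {x : G} (hx : x ∈ U) :
    ∃ (F : Finset ι) (O : ι → Set T), (∀ i ∈ F, IsOpen (O i) ∧ (x : ι → T) i ∈ O i) ∧
      ∀ y : G, (∀ i ∈ F, (y : ι → T) i ∈ O i) → y ∈ U := by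
  obtain ⟨V, hV, rfl⟩ := isOpen_induced_iff.1 hU
  obtain ⟨F, O, h1, h2⟩ := isOpen_pi_iff.1 hV x hx
  exact ⟨F, O, h1, fun y hy => h2 hy⟩

theorem nhds_basic {U : Set G} {x : G} (hU : U ∈ 𝓝 x) :
    ∃ (F : Finset ι) (O : ι → Set T), (∀ i ∈ F, IsOpen (O i) ∧ (x : ι → T) i ∈ O i) ∧
      ∀ y : G, (∀ i ∈ F, (y : ι → T) i ∈ O i) → y ∈ U := by
  obtain ⟨V, hVU, hV, hx⟩ := mem_nhds_iff.1 hU
  obtain ⟨F, O, h1, h2⟩ := open_basic hV hx
  exact ⟨F, O, h1, fun y hy => hVU (h2 y hy)⟩

theorem pseudocompact_of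
    (hE : ∀ C : Set ι, C.Countable → ∀ z : ι → T, ∃ g ∈ G, ∀ i ∈ C, g i = z i)
    (f : G → ℝ) (hf : Continuous f) : ∃ C, ∀ x, |f x| ≤ C := by
  classical
  by_contra hcon
  push Not at hcon
  choose x hx using fun n : ℕ => hcon (n : ℝ)
  have h1 : ∀ n : ℕ, ∃ F : Finset ι, ∀ y : G, (∀ i ∈ F, (y : ι → T) i = (x n : ι → T) i) →
      (n : ℝ) < |f y| := by
    intro n
    have hop : IsOpen {y : G | (n : ℝ) < |f y|} := isOpen_lt continuous_const hf.abs
    obtain ⟨F, O, h1, h2⟩ := open_basic hop (hx n)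
    refine ⟨F, fun y hy => h2 y fun i hi => ?_⟩
    rw [hy i hi]
    exact (h1 i hi).2
  choose F hF using h1
  set C : Set ι := ⋃ n, (F n : Set ι) with hC
  have hCc : C.Countable := Set.countable_iUnion fun n => Finset.countable_toSet _
  obtain ⟨z, hz⟩ := exists_clusterPt_of_compactSpace (map (fun n => (x n : ι → T)) atTop)
  obtain ⟨g, hg, hgz⟩ := hE C hCc z
  have hop : IsOpen {y : G | |f y| < |f ⟨g, hg⟩| + 1} := isOpen_lt hf.abs continuous_const
  have hgm : (⟨g, hg⟩ : G) ∈ {y : G | |f y| < |f ⟨g, hg⟩| + 1} := lt_add_one |f ⟨g, hg⟩|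
  obtain ⟨E, O, h1, h2⟩ := open_basic hop hgm
  have hnz : {w : ι → T | ∀ i ∈ E, i ∈ C → w i ∈ O i} ∈ 𝓝 z := by
    have hset : {w : ι → T | ∀ i ∈ E, i ∈ C → w i ∈ O i} =
        ⋂ i ∈ E, {w : ι → T | i ∈ C → w i ∈ O i} := by
      ext w; simp
    rw [hset]
    refine (Filter.biInter_finset_mem E).2 fun i hi => ?_
    by_cases hiC : i ∈ C
    · have h3 : O i ∈ 𝓝 (z i) := by
        have h4 := (h1 i hi).1.mem_nhds (h1 i hi).2
        change O i ∈ 𝓝 (g i) at h4
        rwa [hgz i hiC] at h4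
      have h5 := (continuous_apply i).continuousAt (x := z) |>.preimage_mem_nhds h3
      filter_upwards [h5] with w hw _
      exact hw
    · exact Filter.univ_mem' fun w hw => absurd hw hiC
  have hfreq : ∃ᶠ n in atTop, (x n : ι → T) ∈ {w : ι → T | ∀ i ∈ E, i ∈ C → w i ∈ O i} := by
    have : MapClusterPt z atTop (fun n => (x n : ι → T)) := hz
    exact this.frequently hnz
  obtain ⟨n, hn, hxn⟩ := (hfreq.and_eventually
    (tendsto_natCast_atTop_atTop.eventually_ge_atTop (|f ⟨g, hg⟩| + 1))).exists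
  obtain ⟨y, hy, hyz⟩ := hE (C ∪ (E : Set ι)) (hCc.union (Finset.countable_toSet _))
    (fun i => if i ∈ C then (x n : ι → T) i else g i)
  have hy1 : (n : ℝ) < |f ⟨y, hy⟩| := by
    apply hF n
    intro i hi
    have hiC : i ∈ C := Set.mem_iUnion.2 ⟨n, hi⟩
    have := hyz i (Or.inl hiC)
    rw [if_pos hiC] at this
    exact this
  have hy2 : |f ⟨y, hy⟩| < |f ⟨g, hg⟩| + 1 := by
    apply h2
    intro i hi
    have h3 := hyz i (Or.inr hi)
    change y i ∈ O i
    rw [h3]
    split_ifs with hiC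
    · exact hn i hi hiC
    · exact (h1 i hi).2
  linarith

theorem not_metrizable_of
    (hE : ∀ C : Set ι, C.Countable → ∀ z : ι → T, ∃ g ∈ G, ∀ i ∈ C, g i = z i)
    (hι : ∀ C : Set ι, C.Countable → ∃ i, i ∉ C) :
    ¬ TopologicalSpace.MetrizableSpace G := by
  classical
  intro hm
  obtain ⟨V, hV⟩ := (𝓝 (0 : G)).exists_antitone_basis
  have h1 : ∀ n : ℕ, ∃ F : Finset ι, ∀ y : G, (∀ i ∈ F, (y : ι → T) i = 0) → y ∈ V n := by
    intro n
    obtain ⟨F, O, h1, h2⟩ := nhds_basic (hV.toHasBasis.mem_of_mem (i := n) trivial)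
    refine ⟨F, fun y hy => h2 y fun i hi => ?_⟩
    rw [hy i hi]
    exact (h1 i hi).2
  choose F hF using h1
  set C : Set ι := ⋃ n, (F n : Set ι) with hC
  have hCc : C.Countable := Set.countable_iUnion fun n => Finset.countable_toSet _
  obtain ⟨i, hi⟩ := hι C hCc
  obtain ⟨y, hy, hyz⟩ := hE (insert i C) (hCc.insert i)
    (fun j => if j = i then ((1 / 2 : ℝ) : T) else 0)
  have hyi : y i = ((1 / 2 : ℝ) : T) := by
    rw [hyz i (Set.mem_insert _ _), if_pos rfl]
  have h2 : ∀ n, (⟨y, hy⟩ : G) ∈ V n := by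
    intro n
    apply hF n
    intro j hj
    have hjC : j ∈ C := Set.mem_iUnion.2 ⟨n, hj⟩
    have hji : j ≠ i := fun h => hi (h ▸ hjC)
    change y j = 0
    rw [hyz j (Set.mem_insert_of_mem _ hjC), if_neg hji]
  have h3 : (⟨y, hy⟩ : G) = 0 := by
    by_contra hne
    have h4 : {z : G | z ≠ ⟨y, hy⟩} ∈ 𝓝 (0 : G) := isOpen_ne.mem_nhds (Ne.symm hne)
    obtain ⟨n, -, hn⟩ := hV.toHasBasis.mem_iff.1 h4
    exact hn (h2 n) rfl
  have h4 : y i = 0 := congrFun (congrArg Subtype.val h3) i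
  rw [hyi] at h4
  have h5 := norm_half
  rw [h4, norm_zero] at h5
  norm_num at h5

theorem seqComplete_of
    (hP : ∀ x : ℕ → G, Function.Injective x →
      ∃ i, ¬ ∃ l, Tendsto (fun n => (x n : ι → T) i) atTop (𝓝 l))
    (x : ℕ → G) (hx : ∀ U ∈ 𝓝 (0 : G), ∃ N, ∀ m ≥ N, ∀ n ≥ N, x m - x n ∈ U) :
    ∃ g, Tendsto x atTop (𝓝 g) := by
  classical
  by_cases hinf : (Set.range x).Infinite
  · exfalso
    have hex : ∀ n, ∃ k, x k = (hinf.natEmbedding _ n : G) := fun n =>
      (hinf.natEmbedding _ n).2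
    choose s hs using hex
    have hsx : Function.Injective (fun n => x (s n)) := by
      intro a b hab
      have h1 : ((hinf.natEmbedding _ a : Set.range x) : G) = hinf.natEmbedding _ b := by
        rw [← hs a, ← hs b]; exact hab
      exact (hinf.natEmbedding _).injective (Subtype.ext h1)
    have hsi : Function.Injective s := by
      intro a b hab
      apply hsx
      change x (s a) = x (s b)
      rw [hab]
    obtain ⟨i, hi⟩ := hP _ hsx
    apply hi
    have hc : CauchySeq (fun n => (x n : ι → T) i) := by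
      rw [Metric.cauchySeq_iff]
      intro ε hε
      have hU : {y : G | ‖(y : ι → T) i‖ < ε} ∈ 𝓝 (0 : G) := by
        have hop : IsOpen {y : G | ‖(y : ι → T) i‖ < ε} :=
          isOpen_lt ((continuous_apply i).comp continuous_subtype_val).norm continuous_const
        apply hop.mem_nhds
        change ‖(0 : T)‖ < ε
        rwa [norm_zero]
      obtain ⟨N, hN⟩ := hx _ hU
      refine ⟨N, fun m hm n hn => ?_⟩
      rw [dist_eq_norm]
      exact hN m hm n hn
    obtain ⟨l, hl⟩ := cauchySeq_tendsto_of_complete hc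
    exact ⟨l, hl.comp hsi.nat_tendsto_atTop⟩
  · rw [Set.not_infinite] at hinf
    have : Finite (Set.range x) := hinf
    obtain ⟨v, hv⟩ := Finite.exists_infinite_fiber (Set.rangeFactorization x)
    have hv' : {n | x n = v}.Infinite := by
      rw [← Set.infinite_coe_iff]
      have hset : {n | x n = v} = Set.rangeFactorization x ⁻¹' {v} := by
        ext n
        exact ⟨fun h => Subtype.ext h, fun h => congrArg Subtype.val h⟩
      rw [hset]
      exact hv
    refine ⟨v, ?_⟩
    rw [tendsto_def]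
    intro U hU
    have hU' : {y : G | (v : G) + y ∈ U} ∈ 𝓝 (0 : G) := by
      have hc : ContinuousAt (fun y : G => (v : G) + y) 0 := by fun_prop
      apply hc
      change U ∈ 𝓝 ((v : G) + 0)
      rwa [add_zero]
    obtain ⟨N, hN⟩ := hx _ hU'
    obtain ⟨n, hn, hNn⟩ := hv'.exists_gt N
    refine mem_atTop_sets.2 ⟨N, fun m hm => ?_⟩
    have h1 := hN m hm n hNn.le
    change (v : G) + (x m - x n) ∈ U at h1
    have hn' : x n = v := hn
    rw [hn', add_sub_cancel] at h1
    exact h1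

end

/-- closing off a countable set -/
theorem exists_closed_countable {ι : Type} (C0 : Set ι) (h0 : C0.Countable)
    (W : Finset ι → Set ι) (hW : ∀ F, (W F).Countable) :
    ∃ C : Set ι, C0 ⊆ C ∧ C.Countable ∧ ∀ F : Finset ι, (F : Set ι) ⊆ C → W F ⊆ C := by
  classical
  let step : Set ι → Set ι := fun S => S ∪ ⋃ F ∈ {F : Finset ι | (F : Set ι) ⊆ S}, W F
  have hstep : ∀ S : Set ι, S.Countable → (step S).Countable := by
    intro S hS
    refine hS.union (Set.Countable.biUnion ?_ fun F _ => hW F)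
    have h1 := Set.countable_ofPred_finite_subset hS
    have h2 : {F : Finset ι | (F : Set ι) ⊆ S} =
        (fun F : Finset ι => (F : Set ι)) ⁻¹' {t | t.Finite ∧ t ⊆ S} := by
      ext F
      simp
    rw [h2]
    exact h1.preimage_of_injOn Finset.coe_injective.injOn
  have hmono : Monotone fun n => step^[n] C0 := by
    refine monotone_nat_of_le_succ fun n => ?_
    rw [Function.iterate_succ_apply']
    exact Set.subset_union_left
  refine ⟨⋃ n, step^[n] C0, fun x hx => Set.mem_iUnion.2 ⟨0, hx⟩, ?_, ?_⟩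
  · refine Set.countable_iUnion fun n => ?_
    induction n with
    | zero => exact h0
    | succ n ih => rw [Function.iterate_succ_apply']; exact hstep _ ih
  · intro F hF
    obtain ⟨n, hn⟩ := (hmono.directed_le).exists_mem_subset_of_finset_subset_biUnion hF
    intro x hx
    refine Set.mem_iUnion.2 ⟨n + 1, ?_⟩
    rw [Function.iterate_succ_apply']
    exact Or.inr (Set.mem_iUnion₂.2 ⟨F, hn, hx⟩)

end Pool.Agent.TH574.PZ
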