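import Pool.Agent.TH574.PZ.Kron

/-!
Independent families in the circle group and families with non-convergent combinations.
-/

set_option autoImplicit false

namespace Pool.Agent.TH574.PZ

open Filter Topology Metric Cardinal

/-- evaluation of the character `χ` at the point `x` -/
noncomputable def pair {ι : Type} (χ : ι →₀ ℤ) (x : ι → T) : T := χ.sum fun i n => n • x i

section

variable {ι : Type}

theorem pair_zero_left (x : ι → T) : pair 0 x = 0 := Finsupp.sum_zero_index

theorem pair_add_left (χ χ' : ι →₀ ℤ) (x : ι → T) : pair (χ + χ') x = pair χ x + pair χ' x := by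
  classical
  exact Finsupp.sum_add_index' (fun _ => zero_smul _ _) (fun _ _ _ => add_smul _ _ _)

theorem pair_neg_left (χ : ι →₀ ℤ) (x : ι → T) : pair (-χ) x = -pair χ x := by
  have h := pair_add_left (-χ) χ x
  rw [neg_add_cancel, pair_zero_left] at h
  exact eq_neg_of_add_eq_zero_left h.symm

theorem pair_sub_left (χ χ' : ι →₀ ℤ) (x : ι → T) : pair (χ - χ') x = pair χ x - pair χ' x := by
  rw [sub_eq_add_neg, pair_add_left, pair_neg_left, ← sub_eq_add_neg]

theorem pair_add_right (χ : ι →₀ ℤ) (x y : ι → T) : pair χ (x + y) = pair χ x + pair χ y := by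
  unfold pair Finsupp.sum
  rw [← Finset.sum_add_distrib]
  exact Finset.sum_congr rfl fun i _ => smul_add _ _ _

theorem pair_sub_right (χ : ι →₀ ℤ) (x y : ι → T) : pair χ (x - y) = pair χ x - pair χ y := by
  unfold pair Finsupp.sum
  rw [← Finset.sum_sub_distrib]
  exact Finset.sum_congr rfl fun i _ => smul_sub _ _ _

theorem pair_zsmul_right (χ : ι →₀ ℤ) (n : ℤ) (x : ι → T) : pair χ (n • x) = n • pair χ x := by
  unfold pair Finsupp.sum
  rw [Finset.smul_sum]
  refine Finset.sum_congr rfl fun i _ => ?_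
  change χ i • (n • x i) = n • (χ i • x i)
  rw [smul_comm]

theorem pair_congr {χ : ι →₀ ℤ} {x y : ι → T} (h : ∀ i ∈ χ.support, x i = y i) :
    pair χ x = pair χ y := by
  unfold pair Finsupp.sum
  refine Finset.sum_congr rfl fun i hi => ?_
  change χ i • x i = χ i • y i
  rw [h i hi]

theorem pair_single_right [DecidableEq ι] (χ : ι →₀ ℤ) (i : ι) (t : T) :
    pair χ (Pi.single i t) = χ i • t := by
  change ∑ j ∈ χ.support, χ j • (Pi.single i t : ι → T) j = χ i • t
  rw [Finset.sum_eq_single i]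
  · rw [Pi.single_eq_same]
  · intro j _ hj
    rw [Pi.single_eq_of_ne hj, smul_zero]
  · intro hi
    rw [Finsupp.notMem_support_iff.1 hi, zero_smul]

theorem continuous_pair (χ : ι →₀ ℤ) : Continuous fun x : ι → T => pair χ x := by
  unfold pair Finsupp.sum
  fun_prop

end

theorem exists_indep (S : Set T) (hS : #S < 𝔠) (ι : Type) (hι : #ι ≤ 𝔠) :
    ∃ x : ι → T, ∀ χ : ι →₀ ℤ, χ ≠ 0 → pair χ x ∉ AddSubgroup.closure S := by
  classical
  have hlift : ∀ s : T, ∃ r : ℝ, (r : T) = s := fun s => QuotientAddGroup.mk_surjective s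
  choose lift hl using hlift
  set A : Set ℝ := insert 1 (lift '' S) with hA
  set W : Submodule ℚ ℝ := Submodule.span ℚ A with hW
  have hAc : #A < 𝔠 := by
    refine (mk_insert_le).trans_lt (add_lt_of_lt aleph0_le_continuum ?_
      (one_lt_aleph0.trans_le aleph0_le_continuum))
    exact mk_image_le.trans_lt hS
  have hWc : Module.rank ℚ W < 𝔠 := (rank_span_le A).trans_lt hAc
  have hQ : 𝔠 ≤ Module.rank ℚ (ℝ ⧸ W) := by
    by_contra hlt
    have h1 := rank_quotient_add_rank_of_divisionRing W
    rw [Real.rank_rat_real] at h1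
    have h2 := add_lt_of_lt aleph0_le_continuum (not_le.1 hlt) hWc
    rw [h1] at h2
    exact lt_irrefl _ h2
  let b := Module.Basis.ofVectorSpace ℚ (ℝ ⧸ W)
  have hb : 𝔠 ≤ #(Module.Basis.ofVectorSpaceIndex ℚ (ℝ ⧸ W)) := by
    rw [b.mk_eq_rank'']; exact hQ
  obtain ⟨g⟩ := (Cardinal.le_def _ _).1 (hι.trans hb)
  have hlin : LinearIndependent ℤ (fun i => b (g i)) := by
    refine LinearIndependent.restrict_scalars (K := ℚ) ?_ (b.linearIndependent.comp g g.injective)
    intro m n hmn
    simpa using hmn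
  have hy : ∀ i, ∃ y : ℝ, W.mkQ y = b (g i) := fun i => W.mkQ_surjective _
  choose y hy using hy
  refine ⟨fun i => (y i : T), fun χ hχ hmem => hχ ?_⟩
  have h1 : AddSubgroup.closure S ≤ W.toAddSubgroup.map (QuotientAddGroup.mk' _) := by
    rw [AddSubgroup.closure_le]
    intro s hs
    refine ⟨lift s, ?_, hl s⟩
    exact Submodule.subset_span (Set.mem_insert_of_mem _ (Set.mem_image_of_mem _ hs))
  obtain ⟨w, hw, hwe⟩ := h1 hmem
  have h2 : pair χ (fun i => (y i : T)) = ((χ.sum fun i n => (n : ℝ) * y i : ℝ) : T) := by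
    unfold pair Finsupp.sum
    have : ∀ s : Finset ι, ((∑ i ∈ s, ((χ i : ℝ)) * y i : ℝ) : T) = ∑ i ∈ s, χ i • (y i : T) := by
      intro s
      induction s using Finset.induction_on with
      | empty => simp
      | insert a s ha ih =>
        rw [Finset.sum_insert ha, Finset.sum_insert ha, AddCircle.coe_add, ih, ← zsmul_eq_mul]
        rfl
    exact (this _).symm
  have h3 : (((χ.sum fun i n => (n : ℝ) * y i) - w : ℝ) : T) = 0 := by
    rw [AddCircle.coe_sub, ← h2, sub_eq_zero]
    exact hwe.symm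
  rw [AddCircle.coe_eq_zero_iff] at h3
  obtain ⟨n, hn⟩ := h3
  have h4 : (χ.sum fun i n => (n : ℝ) * y i) ∈ W := by
    have h5 : (χ.sum fun i n => (n : ℝ) * y i) = w + n • (1 : ℝ) := by rw [hn]; ring
    rw [h5]
    refine W.add_mem hw ?_
    have h6 : (1 : ℝ) ∈ W := Submodule.subset_span (Set.mem_insert _ _)
    exact zsmul_mem h6 n
  have h5 : W.mkQ (χ.sum fun i n => (n : ℝ) * y i) = 0 := by
    rw [Submodule.mkQ_apply]
    exact (Submodule.Quotient.mk_eq_zero W).2 h4
  rw [linearIndependent_iff] at hlin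
  apply hlin
  rw [Finsupp.linearCombination_apply, ← h5, Finsupp.sum, Finsupp.sum, map_sum]
  refine Finset.sum_congr rfl fun i _ => ?_
  rw [← hy i, ← zsmul_eq_mul, map_zsmul]

theorem norm_half : ‖((1 / 2 : ℝ) : T)‖ = 1 / 2 := by
  have h := AddCircle.norm_half_period_eq (1 : ℝ)
  simpa using h

theorem exists_nonconv {ι : Type} (s : ℕ → ι →₀ ℤ) (hs : Function.Injective s) :
    ∃ w : ι → T, ¬ ∃ l, Tendsto (fun n => pair (s n) w) atTop (𝓝 l) := by
  classical
  by_contra hcon
  push Not at hcon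
  let K : ℕ → Set (ι → T) := fun m => {w | ∀ n ≥ m, ∀ n' ≥ m, ‖pair (s n - s n') w‖ ≤ 1 / 16}
  have hKc : ∀ m, IsClosed (K m) := by
    intro m
    have : K m = ⋂ n ≥ m, ⋂ n' ≥ m, {w | ‖pair (s n - s n') w‖ ≤ 1 / 16} := by
      ext w; simp [K]
    rw [this]
    refine isClosed_biInter fun n _ => isClosed_biInter fun n' _ => ?_
    exact isClosed_le (continuous_pair _).norm continuous_const
  have hKu : ⋃ m, K m = Set.univ := by
    rw [Set.eq_univ_iff_forall]
    intro w
    obtain ⟨l, hl⟩ := hcon w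
    have h1 := hl.cauchySeq
    rw [Metric.cauchySeq_iff] at h1
    obtain ⟨N, hN⟩ := h1 (1 / 16) (by norm_num)
    refine Set.mem_iUnion.2 ⟨N, fun n hn n' hn' => ?_⟩
    have h2 := hN n hn n' hn'
    rw [dist_eq_norm, ← pair_sub_left] at h2
    exact h2.le
  obtain ⟨m, w0, hw0⟩ := nonempty_interior_of_iUnion_of_closed hKc hKu
  rw [mem_interior_iff_mem_nhds, nhds_pi, Filter.mem_pi] at hw0
  obtain ⟨I, hI, t, ht, htK⟩ := hw0
  have h1 : ∀ i, ∃ ε > 0, ball (w0 i) ε ⊆ t i := fun i => Metric.mem_nhds_iff.1 (ht i)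
  choose e he het using h1
  obtain ⟨ε, hε, hεle⟩ : ∃ ε > 0, ∀ i ∈ I, ε ≤ e i := by
    rcases I.eq_empty_or_nonempty with rfl | hne
    · exact ⟨1, one_pos, by simp⟩
    · obtain ⟨i, hi, hmin⟩ := hI.exists_minimalFor e I hne
      refine ⟨e i, he i, fun j hj => ?_⟩
      by_contra hlt
      exact hlt (hmin hj (not_le.1 hlt).le)
  have hw0K : w0 ∈ K m := htK fun i _ => mem_of_mem_nhds (ht i)
  have key : ∀ ψ : ι → T, (∀ i ∈ I, ‖ψ i‖ < ε) → ∀ n ≥ m, ‖pair (s n - s m) ψ‖ ≤ 1 / 8 := by
    intro ψ hψ n hn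
    have h2 : w0 + ψ ∈ K m := by
      apply htK
      intro i hi
      apply het i
      rw [mem_ball, dist_eq_norm, Pi.add_apply, add_sub_cancel_left]
      exact (hψ i hi).trans_le (hεle i hi)
    have h3 := h2 n hn m le_rfl
    have h4 := hw0K n hn m le_rfl
    rw [pair_add_right] at h3
    have h5 := norm_sub_le (pair (s n - s m) w0 + pair (s n - s m) ψ) (pair (s n - s m) w0)
    rw [add_sub_cancel_left] at h5
    linarith
  have key2 : ∀ n ≥ m, ∀ α, (s n - s m) α ≠ 0 →
      (α ∈ I ∧ ((|(s n - s m) α| : ℤ) : ℝ) ≤ 1 / (2 * ε)) := by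
    intro n hn α hα
    by_contra hnot
    set d : ℝ := (((s n - s m) α : ℤ) : ℝ) with hd
    have hd0 : d ≠ 0 := by rw [hd]; exact_mod_cast hα
    have h2 := key (Pi.single α (((1 / (2 * d) : ℝ)) : T)) (by
      intro i hi
      by_cases hiα : i = α
      · subst hiα
        rw [Pi.single_eq_same]
        have h3 : 1 / (2 * ε) < |d| := by
          by_contra hle
          apply hnot
          refine ⟨hi, ?_⟩
          push_cast
          exact not_lt.1 hle
        have h4 : ‖((1 / (2 * d) : ℝ) : T)‖ ≤ |1 / (2 * d)| := by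
          rw [UnitAddCircle.norm_eq]
          have := round_le (1 / (2 * d)) 0
          simpa using this
        refine h4.trans_lt ?_
        have h5 : 0 < |d| := abs_pos.2 hd0
        rw [abs_div, abs_one, abs_mul, abs_two, div_lt_iff₀ (by positivity)]
        rw [div_lt_iff₀ (by positivity)] at h3
        linarith
      · rw [Pi.single_eq_of_ne hiα, norm_zero]
        exact hε) n hn
    rw [pair_single_right] at h2
    have h3 : (s n - s m) α • ((1 / (2 * d) : ℝ) : T) = ((1 / 2 : ℝ) : T) := by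
      have : ((s n - s m) α • (1 / (2 * d)) : ℝ) = 1 / 2 := by
        rw [zsmul_eq_mul, ← hd]
        field_simp
      rw [← this]
      rfl
    rw [h3, norm_half] at h2
    norm_num at h2
  -- finitely many differences
  obtain ⟨R, hR⟩ := exists_nat_ge (1 / (2 * ε))
  have hfin : (((fun n => s (n + m)) '' Set.univ)).Finite := by
    refine ((((hI.toFinset).finsupp fun _ => Finset.Icc (-(R : ℤ)) R).finite_toSet).image
      (fun d => d + s m)).subset ?_
    rintro _ ⟨n, -, rfl⟩
    refine ⟨s (n + m) - s m, ?_, by simp⟩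
    rw [Finset.mem_coe, Finset.mem_finsupp_iff]
    constructor
    · intro α hα
      rw [Finsupp.mem_support_iff] at hα
      rw [Set.Finite.mem_toFinset]
      exact (key2 (n + m) (Nat.le_add_left _ _) α hα).1
    · intro α _
      rw [Finset.mem_Icc, ← abs_le]
      by_cases hα : (s (n + m) - s m) α = 0
      · rw [hα]; simp
      · have := (key2 (n + m) (Nat.le_add_left _ _) α hα).2.trans hR
        exact_mod_cast this
  have hinj : Function.Injective fun n => s (n + m) := fun a b hab => by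
    have := hs hab
    omega
  rw [Set.image_univ] at hfin
  exact Set.infinite_range_of_injective hinj hfin

theorem exists_col (S : Set T) (hS : #S < 𝔠) (ι : Type) (hι : #ι ≤ 𝔠) (s : ℕ → ι →₀ ℤ)
    (hs : Function.Injective s) :
    ∃ x : ι → T, (∀ χ : ι →₀ ℤ, χ ≠ 0 → pair χ x ∉ AddSubgroup.closure S) ∧
      ¬ ∃ l, Tendsto (fun n => pair (s n) x) atTop (𝓝 l) := by
  classical
  obtain ⟨w0, hw0⟩ := exists_nonconv s hs
  set E : Set ι := ⋃ n, ((s n).support : Set ι) with hE
  have hEc : E.Countable := Set.countable_iUnion fun n => (s n).support.countable_toSet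
  let w : ι → T := fun i => if i ∈ E then w0 i else 0
  have hw : ¬ ∃ l, Tendsto (fun n => pair (s n) w) atTop (𝓝 l) := by
    rintro ⟨l, hl⟩
    apply hw0
    refine ⟨l, hl.congr fun n => pair_congr fun i hi => ?_⟩
    have : i ∈ E := Set.mem_iUnion.2 ⟨n, hi⟩
    simp only [w, if_pos this]
  have hrange : Set.range w ⊆ insert 0 (w0 '' E) := by
    rintro _ ⟨i, rfl⟩
    by_cases hi : i ∈ E
    · right
      simp only [w, if_pos hi]
      exact Set.mem_image_of_mem _ hi
    · left
      simp only [w, if_neg hi]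
  have hrc : (Set.range w).Countable := ((hEc.image w0).insert 0).mono hrange
  have hS' : #(S ∪ Set.range w : Set T) < 𝔠 := by
    refine (mk_union_le _ _).trans_lt (add_lt_of_lt aleph0_le_continuum hS ?_)
    exact (Cardinal.le_aleph0_iff_set_countable.2 hrc).trans_lt aleph0_lt_continuum
  obtain ⟨x, hx⟩ := exists_indep _ hS' ι hι
  by_cases hxc : ∃ l, Tendsto (fun n => pair (s n) x) atTop (𝓝 l)
  · refine ⟨x - w, ?_, ?_⟩
    · intro χ hχ hmem
      apply hx χ hχ
      rw [pair_sub_right] at hmem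
      have h1 : pair χ w ∈ AddSubgroup.closure (S ∪ Set.range w) := by
        unfold pair
        refine AddSubgroup.sum_mem _ fun i _ => AddSubgroup.zsmul_mem _ ?_ _
        exact AddSubgroup.subset_closure (Or.inr (Set.mem_range_self i))
      have h2 := AddSubgroup.closure_mono (Set.subset_union_left (t := Set.range w)) hmem
      have h3 := AddSubgroup.add_mem _ h2 h1
      rwa [sub_add_cancel] at h3
    · rintro ⟨l, hl⟩
      obtain ⟨l', hl'⟩ := hxc
      apply hw
      refine ⟨l' - l, (hl'.sub hl).congr fun n => ?_⟩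
      rw [pair_sub_right]
      abel
  · refine ⟨x, ?_, hxc⟩
    intro χ hχ hmem
    exact hx χ hχ (AddSubgroup.closure_mono Set.subset_union_left hmem)

end Pool.Agent.TH574.PZ
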