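import Mathlib

/-!
Kronecker's theorem in finite-dimensional tori: the closure of a cyclic subgroup is the common
kernel of the characters that vanish on the generator.
-/

set_option autoImplicit false

namespace Pool.Agent.TH574.PZ

open Filter Topology Metric

abbrev T : Type := UnitAddCircle

section torus

variable {I : Type} [Fintype I]

theorem mF_apply (k : I → ℤ) (x : UnitAddTorus I) :
    UnitAddTorus.mFourier k x = ∏ i, fourier (k i) (x i) := rfl

theorem mF_nsmul_add (k : I → ℤ) (z s : UnitAddTorus I) (n : ℕ) :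
    UnitAddTorus.mFourier k (n • z + s) =
      (UnitAddTorus.mFourier k z) ^ n * UnitAddTorus.mFourier k s := by
  rw [mF_apply, mF_apply, mF_apply, ← Finset.prod_pow, ← Finset.prod_mul_distrib]
  refine Finset.prod_congr rfl fun i _ => ?_
  simp only [Pi.add_apply, Pi.smul_apply, fourier_apply, smul_add]
  rw [AddCircle.toCircle_add, smul_comm, AddCircle.toCircle_nsmul]
  simp

theorem mF_norm (k : I → ℤ) (x : UnitAddTorus I) :
    ‖UnitAddTorus.mFourier k x‖ = 1 := by
  rw [mF_apply, norm_prod]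
  refine Finset.prod_eq_one fun i _ => ?_
  rw [fourier_apply]
  exact Circle.norm_coe _

theorem mF_eq (k : I → ℤ) (x : UnitAddTorus I) :
    UnitAddTorus.mFourier k x = (AddCircle.toCircle (∑ i, k i • x i) : ℂ) := by
  rw [mF_apply]
  classical
  have h : ∀ s : Finset I, ∏ i ∈ s, (fourier (k i) (x i) : ℂ) =
      (AddCircle.toCircle (∑ i ∈ s, k i • x i) : ℂ) := by
    intro s
    induction s using Finset.induction_on with
    | empty => simp
    | insert a s ha ih =>
      rw [Finset.prod_insert ha, Finset.sum_insert ha, ih, AddCircle.toCircle_add, fourier_apply]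
      simp
  exact h Finset.univ

theorem mF_eq_one_iff (k : I → ℤ) (x : UnitAddTorus I) :
    UnitAddTorus.mFourier k x = 1 ↔ ∑ i, k i • x i = 0 := by
  rw [mF_eq]
  constructor
  · intro h
    have h1 : AddCircle.toCircle (∑ i, k i • x i) = 1 := Circle.coe_eq_one.mp h
    have h2 : AddCircle.toCircle (∑ i, k i • x i) = AddCircle.toCircle (0 : UnitAddCircle) := by
      rw [h1, AddCircle.toCircle_zero]
    exact AddCircle.injective_toCircle one_ne_zero h2
  · intro h
    rw [h, AddCircle.toCircle_zero]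
    simp

theorem geom_avg (ρ : ℂ) (h1 : ‖ρ‖ = 1) (h2 : ρ ≠ 1) :
    Tendsto (fun N : ℕ => ((N : ℂ))⁻¹ * ∑ n ∈ Finset.range N, ρ ^ n) atTop (𝓝 0) := by
  have hb : ∀ N : ℕ, ‖((N : ℂ))⁻¹ * ∑ n ∈ Finset.range N, ρ ^ n‖ ≤ (2 / ‖ρ - 1‖) * ((N : ℝ))⁻¹ := by
    intro N
    rw [norm_mul, norm_inv, Complex.norm_natCast, geom_sum_eq h2, norm_div, mul_comm]
    apply mul_le_mul_of_nonneg_right _ (by positivity)
    apply div_le_div_of_nonneg_right _ (norm_nonneg _)
    calc ‖ρ ^ N - 1‖ ≤ ‖ρ ^ N‖ + ‖(1 : ℂ)‖ := norm_sub_le _ _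
      _ = 2 := by rw [norm_pow, h1]; norm_num
  refine squeeze_zero_norm hb ?_
  have : Tendsto (fun N : ℕ => ((N : ℝ))⁻¹) atTop (𝓝 0) := tendsto_inv_atTop_nhds_zero_nat
  simpa using this.const_mul (2 / ‖ρ - 1‖)

theorem span_avg (y g : UnitAddTorus I)
    (hy : ∀ k : I → ℤ, UnitAddTorus.mFourier k y = 1 → UnitAddTorus.mFourier k g = 1)
    (q : C(UnitAddTorus I, ℂ))
    (hq : q ∈ Submodule.span ℂ (Set.range (UnitAddTorus.mFourier (d := I)))) :
    Tendsto (fun N : ℕ => ((N : ℂ))⁻¹ *
      ∑ n ∈ Finset.range N, (q (n • y + g) - q (n • y + 0))) atTop (𝓝 0) := by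
  induction hq using Submodule.span_induction with
  | mem x hx =>
    obtain ⟨k, rfl⟩ := hx
    by_cases hk : UnitAddTorus.mFourier k y = 1
    · have h1 : ∀ n : ℕ, UnitAddTorus.mFourier k (n • y + g) -
          UnitAddTorus.mFourier k (n • y + 0) = 0 := by
        intro n
        rw [mF_nsmul_add, mF_nsmul_add, hk, hy k hk]
        have : UnitAddTorus.mFourier k (0 : UnitAddTorus I) = 1 := by
          rw [mF_eq_one_iff]; simp
        rw [this]; ring
      refine tendsto_const_nhds.congr fun N => ?_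
      rw [Finset.sum_eq_zero fun n _ => h1 n, mul_zero]
    · have := (geom_avg _ (mF_norm k y) hk).mul_const
        (UnitAddTorus.mFourier k g - UnitAddTorus.mFourier k 0)
      rw [zero_mul] at this
      refine this.congr fun N => ?_
      rw [mul_assoc, Finset.sum_mul]
      congr 1
      refine Finset.sum_congr rfl fun n _ => ?_
      rw [mF_nsmul_add, mF_nsmul_add]; ring
  | zero => simp
  | add x z _ _ hx hz =>
    have := hx.add hz
    rw [add_zero] at this
    refine this.congr fun N => ?_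
    rw [← mul_add, ← Finset.sum_add_distrib]
    congr 1
    refine Finset.sum_congr rfl fun n _ => ?_
    simp only [ContinuousMap.add_apply]; ring
  | smul u x _ hx =>
    have := hx.const_mul u
    rw [mul_zero] at this
    refine this.congr fun N => ?_
    simp only [ContinuousMap.smul_apply, smul_eq_mul]
    rw [← mul_assoc, mul_comm u, mul_assoc, Finset.mul_sum]
    congr 1
    refine Finset.sum_congr rfl fun n _ => ?_
    ring

/-- If every character trivial on `y` is trivial on `g`, then `g` is in the closure of the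
multiples of `y`. -/
theorem kronecker (y g : UnitAddTorus I)
    (hy : ∀ k : I → ℤ, ∑ i, k i • y i = 0 → ∑ i, k i • g i = 0)
    (ε : ℝ) (hε : 0 < ε) : ∃ n : ℤ, dist (n • y) g < ε := by
  have hy' : ∀ k : I → ℤ, UnitAddTorus.mFourier k y = 1 → UnitAddTorus.mFourier k g = 1 := by
    intro k hk
    rw [mF_eq_one_iff] at hk ⊢
    exact hy k hk
  set L : Set (UnitAddTorus I) := closure (Set.range fun n : ℤ => n • y) with hL
  have hLne : L.Nonempty := ⟨_, subset_closure (Set.mem_range_self 0)⟩
  by_cases hgL : g ∈ L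
  · rw [hL, Metric.mem_closure_iff] at hgL
    obtain ⟨_, ⟨n, rfl⟩, hn⟩ := hgL ε hε
    exact ⟨n, by rw [dist_comm]; exact hn⟩
  exfalso
  have hLinv : ∀ (n : ℤ) (x : UnitAddTorus I), x ∈ L → n • y + x ∈ L := by
    intro n x hx
    rw [hL, Metric.mem_closure_iff] at hx ⊢
    intro δ hδ
    obtain ⟨_, ⟨m, rfl⟩, hm⟩ := hx δ hδ
    refine ⟨_, ⟨n + m, rfl⟩, ?_⟩
    simp only [add_smul]
    rw [dist_add_left]
    exact hm
  have hinv : ∀ (n : ℤ) (x : UnitAddTorus I), infDist (n • y + x) L = infDist x L := by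
    have hle : ∀ (n : ℤ) (x : UnitAddTorus I), infDist (n • y + x) L ≤ infDist x L := by
      intro n x
      refine le_of_forall_pos_lt_add fun δ hδ => ?_
      obtain ⟨z, hz, hxz⟩ := (infDist_lt_iff hLne).1 (lt_add_of_pos_right (infDist x L) hδ)
      refine (infDist_le_dist_of_mem (hLinv n z hz)).trans_lt ?_
      rw [dist_add_left]
      exact hxz
    intro n x
    refine le_antisymm (hle n x) ?_
    have := hle (-n) (n • y + x)
    rwa [neg_smul, neg_add_cancel_left] at this
  set c : ℝ := infDist g L with hc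
  have hcpos : 0 < c := by
    have h1 : IsClosed L := isClosed_closure
    exact (h1.notMem_iff_infDist_pos hLne).1 hgL
  let f : C(UnitAddTorus I, ℂ) := ⟨fun x => ((infDist x L : ℝ) : ℂ),
    Complex.continuous_ofReal.comp (continuous_infDist_pt L)⟩
  have hf : ∀ x, f x = ((infDist x L : ℝ) : ℂ) := fun x => rfl
  have hf0 : ∀ n : ℕ, f (n • y + 0) = 0 := by
    intro n
    have h1 := hinv (n : ℤ) 0
    rw [natCast_zsmul] at h1
    rw [hf, h1]
    have h0 : (0 : UnitAddTorus I) ∈ L := subset_closure ⟨0, by simp⟩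
    rw [infDist_zero_of_mem h0]; simp
  have hfg : ∀ n : ℕ, f (n • y + g) = (c : ℂ) := by
    intro n
    have h1 := hinv (n : ℤ) g
    rw [natCast_zsmul] at h1
    rw [hf, h1]
  have hfcl : f ∈ (Submodule.span ℂ
      (Set.range (UnitAddTorus.mFourier (d := I)))).topologicalClosure := by
    rw [UnitAddTorus.span_mFourier_closure_eq_top]; trivial
  obtain ⟨q, hq, hqf⟩ := Metric.mem_closure_iff.mp hfcl (c / 4) (by linarith)
  rw [dist_eq_norm] at hqf
  have hq2 : ∀ x, ‖f x - q x‖ ≤ c / 4 := fun x => ((f - q).norm_coe_le_norm x).trans hqf.le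
  have hlim := (span_avg y g hy' q hq).norm
  rw [norm_zero] at hlim
  have hlow : c / 2 ≤ 0 := by
    refine ge_of_tendsto hlim ?_
    filter_upwards [eventually_gt_atTop 0] with N hN
    have hN' : (0 : ℝ) < N := by exact_mod_cast hN
    have hNc : (N : ℂ) ≠ 0 := by exact_mod_cast hN.ne'
    have e1 : ((N : ℂ))⁻¹ * ∑ n ∈ Finset.range N, (q (n • y + g) - q (n • y + 0)) =
        (c : ℂ) - ((N : ℂ))⁻¹ * ∑ n ∈ Finset.range N,
          ((f (n • y + g) - q (n • y + g)) - (f (n • y + 0) - q (n • y + 0))) := by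
      have e2 : ∀ n ∈ Finset.range N,
          ((f (n • y + g) - q (n • y + g)) - (f (n • y + 0) - q (n • y + 0))) =
          (c : ℂ) - (q (n • y + g) - q (n • y + 0)) := by
        intro n _
        rw [hf0, hfg]; ring
      rw [Finset.sum_congr rfl e2,
        Finset.sum_sub_distrib (fun _ => (c : ℂ)) (fun n : ℕ => q (n • y + g) - q (n • y + 0)),
        Finset.sum_const, Finset.card_range,
        nsmul_eq_mul, mul_sub, ← mul_assoc, inv_mul_cancel₀ hNc]
      ring
    rw [e1]
    have e3 : ‖((N : ℂ))⁻¹ * ∑ n ∈ Finset.range N,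
          ((f (n • y + g) - q (n • y + g)) - (f (n • y + 0) - q (n • y + 0)))‖ ≤ c / 2 := by
      rw [norm_mul, norm_inv, Complex.norm_natCast]
      have h2 : ‖∑ n ∈ Finset.range N,
          ((f (n • y + g) - q (n • y + g)) - (f (n • y + 0) - q (n • y + 0)))‖ ≤ N * (c / 2) := by
        refine (norm_sum_le _ _).trans ?_
        have : ∀ n ∈ Finset.range N,
            ‖(f (n • y + g) - q (n • y + g)) - (f (n • y + 0) - q (n • y + 0))‖ ≤ c / 2 := by
          intro n _
          refine (norm_sub_le _ _).trans ?_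
          have h3 := hq2 (n • y + g)
          have h4 := hq2 (n • y + 0)
          linarith
        refine (Finset.sum_le_sum this).trans ?_
        simp
      calc ((N : ℝ))⁻¹ * ‖∑ n ∈ Finset.range N,
            ((f (n • y + g) - q (n • y + g)) - (f (n • y + 0) - q (n • y + 0)))‖
          ≤ ((N : ℝ))⁻¹ * (N * (c / 2)) := mul_le_mul_of_nonneg_left h2 (by positivity)
        _ = c / 2 := by field_simp
    have e4 := norm_sub_norm_le (c : ℂ) (((N : ℂ))⁻¹ * ∑ n ∈ Finset.range N,
          ((f (n • y + g) - q (n • y + g)) - (f (n • y + 0) - q (n • y + 0))))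
    have e5 : ‖(c : ℂ)‖ = c := by
      rw [Complex.norm_real, Real.norm_of_nonneg hcpos.le]
    linarith
  linarith

end torus

end Pool.Agent.TH574.PZ
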