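import Pool.Agent.TH574.PZ.Rec

/-!
The three properties of the matrix.
-/

set_option autoImplicit false

namespace Pool.Agent.TH574.PZ

open Filter Topology Metric Cardinal

/-- the point of the product attached to a finitely supported function -/
noncomputable def Phi {ι : Type} (M : ι → ι → T) (h : ι →₀ ℤ) (i : ι) : T :=
  pair h (fun α => M α i)

section

variable {ι : Type} (M : ι → ι → T)

theorem Phi_zero : Phi M 0 = 0 := by
  funext i; exact pair_zero_left _

theorem Phi_add (h h' : ι →₀ ℤ) : Phi M (h + h') = Phi M h + Phi M h' := by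
  funext i; exact pair_add_left _ _ _

theorem pair_single_left (i : ι) (n : ℤ) (x : ι → T) : pair (Finsupp.single i n) x = n • x i := by
  unfold pair
  exact Finsupp.sum_single_index (zero_smul _ _)

theorem Phi_single (γ : ι) (n : ℤ) : Phi M (Finsupp.single γ n) = n • M γ := by
  funext i
  change pair _ _ = n • M γ i
  exact pair_single_left _ _ _

theorem pair_smul_left (n : ℤ) (χ : ι →₀ ℤ) (x : ι → T) : pair (n • χ) x = n • pair χ x := by
  let F : (ι →₀ ℤ) →+ T := ⟨⟨fun χ => pair χ x, pair_zero_left x⟩, fun a b => pair_add_left a b x⟩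
  exact map_zsmul F n χ

end

theorem earlier_mem (f : Ix → (Ix → T) × (Ix → T)) (γ : Ix) (h χ : Ix →₀ ℤ)
    (hh : ∀ α ∈ h.support, α < γ) (hχ : ∀ i ∈ χ.support, i < γ) :
    pair χ (Phi (Mat f) h) ∈ AddSubgroup.closure (Earlier f γ) := by
  unfold pair Phi pair Finsupp.sum
  refine AddSubgroup.sum_mem _ fun i hi => ?_
  refine AddSubgroup.zsmul_mem _ ?_ _
  refine AddSubgroup.sum_mem _ fun α hα => ?_
  refine AddSubgroup.zsmul_mem _ ?_ _
  exact AddSubgroup.subset_closure ⟨α, hh α hα, i, hχ i hi, rfl⟩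

theorem exists_matrix : ∃ M : Ix → Ix → T,
    (∀ C : Set Ix, C.Countable → ∀ z : Ix → T, ∃ γ, ∀ i ∈ C, M γ i = z i) ∧
    (∀ h : Ix →₀ ℤ, h ≠ 0 → ∃ D : Set Ix, D.Countable ∧
      ∀ χ : Ix →₀ ℤ, χ ≠ 0 → (∀ i ∈ χ.support, i ∉ D) → pair χ (Phi M h) ≠ 0) ∧
    (∀ s : ℕ → Ix →₀ ℤ, Function.Injective s →
      ∃ i, ¬ ∃ l, Tendsto (fun n => Phi M (s n) i) atTop (𝓝 l)) := by
  classical
  obtain ⟨e, f, he, hf⟩ := exists_matrix0
  refine ⟨Mat f, ?_, ?_, ?_⟩
  · intro C hC z
    rcases C.eq_empty_or_nonempty with rfl | hne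
    · obtain ⟨δ, -⟩ := bdd_Ix ∅ Set.countable_empty
      exact ⟨δ, by simp⟩
    obtain ⟨δ, hδ⟩ := bdd_Ix C hC
    obtain ⟨c, rfl⟩ := hC.exists_eq_range hne
    obtain ⟨γ, hγ, heγ⟩ := he (c, fun n => z (c n), fun _ => 0) δ
    refine ⟨γ, ?_⟩
    rintro i ⟨m, rfl⟩
    have hlt : c m < γ := (hδ _ ⟨m, rfl⟩).trans hγ
    have h : ∃ k, c k = c m := ⟨m, rfl⟩
    have h1 := (hf γ).1 (Nat.find h)
    rw [heγ] at h1
    have h2 := h1 (fun k hk heq => Nat.find_min h hk (heq.trans (Nat.find_spec h)))
    have h3 : c (Nat.find h) = c m := Nat.find_spec h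
    simp only [h3] at h2
    unfold Mat
    rw [if_pos hlt, h2]
  · intro h hh
    refine ⟨(h.support : Set Ix) ∪ ⋃ α ∈ h.support, Set.range (e α).1, ?_, ?_⟩
    · refine (Finset.countable_toSet _).union ?_
      exact (Finset.countable_toSet h.support).biUnion fun α _ => Set.countable_range _
    · intro χ hχ hD h0
      have hne : (h.support ∪ χ.support).Nonempty := by
        obtain ⟨a, ha⟩ := Finsupp.support_nonempty_iff.2 hh
        exact ⟨a, Finset.mem_union_left _ ha⟩
      obtain ⟨γ, hγ, hmax⟩ : ∃ γ ∈ h.support ∪ χ.support, ∀ i ∈ h.support ∪ χ.support, i ≤ γ :=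
        ⟨_, Finset.max'_mem _ hne, fun i hi => Finset.le_max' _ i hi⟩
      have hmh : ∀ α ∈ h.support, α ≤ γ := fun α hα => hmax α (Finset.mem_union_left _ hα)
      have hmχ : ∀ i ∈ χ.support, i ≤ γ := fun i hi => hmax i (Finset.mem_union_right _ hi)
      rcases Finset.mem_union.1 hγ with hγ | hγ
      · have hlt : ∀ i ∈ χ.support, i < γ := by
          intro i hi
          refine lt_of_le_of_ne (hmχ i hi) ?_
          rintro rfl
          exact hD i hi (Or.inl hγ)
        have h1 : h = Finsupp.single γ (h γ) + h.erase γ := (Finsupp.single_add_erase γ h).symm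
        have h2 : pair χ (Phi (Mat f) h) = pair (h γ • χ) (f γ).1 +
            pair χ (Phi (Mat f) (h.erase γ)) := by
          conv_lhs => rw [h1]
          rw [Phi_add, pair_add_right, Phi_single, pair_zsmul_right, pair_smul_left]
          congr 2
          apply pair_congr
          intro i hi
          unfold Mat
          rw [if_pos (hlt i hi)]
        have h3 : pair χ (Phi (Mat f) (h.erase γ)) ∈ AddSubgroup.closure (Earlier f γ) := by
          apply earlier_mem _ _ _ _ _ hlt
          intro α hα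
          rw [Finsupp.support_erase, Finset.mem_erase] at hα
          exact lt_of_le_of_ne (hmh α hα.2) hα.1
        have hne : h γ ≠ 0 := Finsupp.mem_support_iff.1 hγ
        have h4 : h γ • χ ≠ 0 := smul_ne_zero hne hχ
        refine (hf γ).2.1 (h γ • χ) h4 ?_ ?_
        · intro i hi hr
          have : i ∈ χ.support := Finsupp.support_smul hi
          exact hD i this (Or.inr (Set.mem_iUnion₂.2 ⟨γ, hγ, hr⟩))
        · rw [h0] at h2
          rw [eq_neg_of_add_eq_zero_left h2.symm]
          exact AddSubgroup.neg_mem _ h3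
      · have hlt : ∀ α ∈ h.support, α < γ := by
          intro i hi
          refine lt_of_le_of_ne (hmh i hi) ?_
          rintro rfl
          exact hD i hγ (Or.inl hi)
        have h1 : χ = Finsupp.single γ (χ γ) + χ.erase γ := (Finsupp.single_add_erase γ χ).symm
        have h2 : pair χ (Phi (Mat f) h) = pair (χ γ • h) (f γ).2 +
            pair (χ.erase γ) (Phi (Mat f) h) := by
          conv_lhs => rw [h1]
          rw [pair_add_left, pair_single_left, pair_smul_left]
          congr 2
          apply pair_congr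
          intro i hi
          unfold Mat
          rw [if_neg (hlt i hi).le.not_gt, if_pos (hlt i hi)]
        have h3 : pair (χ.erase γ) (Phi (Mat f) h) ∈ AddSubgroup.closure (Earlier f γ) := by
          apply earlier_mem _ _ _ _ hlt
          intro α hα
          rw [Finsupp.support_erase, Finset.mem_erase] at hα
          exact lt_of_le_of_ne (hmχ α hα.2) hα.1
        have hne : χ γ ≠ 0 := Finsupp.mem_support_iff.1 hγ
        have h4 : χ γ • h ≠ 0 := smul_ne_zero hne hh
        refine (hf γ).2.2.1 (χ γ • h) h4 ?_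
        rw [h0] at h2
        rw [eq_neg_of_add_eq_zero_left h2.symm]
        exact AddSubgroup.neg_mem _ h3
  · intro s hs
    obtain ⟨δ, hδ⟩ := bdd_Ix (⋃ n, ((s n).support : Set Ix))
      (Set.countable_iUnion fun n => Finset.countable_toSet _)
    obtain ⟨γ, hγ, heγ⟩ := he (fun _ => δ, fun _ => 0, s) δ
    refine ⟨γ, ?_⟩
    have h1 := (hf γ).2.2.2
    rw [heγ] at h1
    have h2 := h1 hs
    have h3 : (fun n => Phi (Mat f) (s n) γ) = fun n => pair (s n) (f γ).2 := by
      funext n
      apply pair_congr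
      intro α hα
      have hlt : α < γ := (hδ α (Set.mem_iUnion.2 ⟨n, hα⟩)).trans hγ
      unfold Mat
      rw [if_neg hlt.le.not_gt, if_pos hlt]
    rw [h3]
    exact h2

end Pool.Agent.TH574.PZ
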