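import Pool.Agent.TH574.PZ.Indep

/-!
The matrix of the construction, by recursion on a well-order of type continuum.
-/

set_option autoImplicit false

namespace Pool.Agent.TH574.PZ

open Filter Topology Metric Cardinal

/-- values chosen by well-founded recursion -/
theorem exists_rec {ι α : Type} [LinearOrder ι] [WellFoundedLT ι] [Inhabited α]
    (Good : ι → (ι → α) → α → Prop)
    (hcongr : ∀ n y y' v, (∀ m < n, y m = y' m) → Good n y v → Good n y' v)
    (h : ∀ n y, ∃ v, Good n y v) : ∃ x : ι → α, ∀ n, Good n x (x n) := by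
  classical
  choose F hF using h
  let x : ι → α := (wellFounded_lt (α := ι)).fix fun n y =>
    F n fun m => if hm : m < n then y m hm else default
  have hx : ∀ n, x n = F n fun m => if m < n then x m else default := by
    intro n
    have := (wellFounded_lt (α := ι)).fix_eq (C := fun _ => α) (fun n y =>
      F n fun m => if hm : m < n then y m hm else default) n
    simp only [x]
    rw [this]
    congr 1
  refine ⟨x, fun n => ?_⟩
  rw [hx n]
  refine hcongr n _ x _ ?_ (hF n _)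
  intro m hm
  simp only [if_pos hm]

section

/-- the index type -/
abbrev Ix : Type := (𝔠 : Cardinal.{0}).ord.ToType

theorem mk_Ix : #Ix = 𝔠 := by simp [Ix]

theorem mk_Iio_Ix (γ : Ix) : #(Set.Iio γ) < 𝔠 := by
  have h := Cardinal.mk_Iio_lt γ (by simp [Ix])
  rwa [mk_Ix] at h

theorem mk_Iic_Ix (γ : Ix) : #(Set.Iic γ) < 𝔠 := by
  rw [← Set.Iio_insert]
  exact mk_insert_le.trans_lt (add_lt_of_lt aleph0_le_continuum (mk_Iio_Ix γ)
    (one_lt_aleph0.trans_le aleph0_le_continuum))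

theorem bdd_Ix (C : Set Ix) (hC : C.Countable) : ∃ δ : Ix, ∀ c ∈ C, c < δ := by
  by_contra hcon
  push Not at hcon
  have h1 : (Set.univ : Set Ix) ⊆ ⋃ c : C, Set.Iic (c : Ix) := by
    intro δ _
    obtain ⟨c, hc, hδ⟩ := hcon δ
    exact Set.mem_iUnion.2 ⟨⟨c, hc⟩, hδ⟩
  have h2 := mk_le_mk_of_subset h1
  rw [mk_univ, mk_Ix] at h2
  have h3 := h2.trans (mk_iUnion_le_sum_mk)
  have h4 := Cardinal.sum_lt_prod (fun c : C => #(Set.Iic (c : Ix))) (fun _ => 𝔠)
    (fun c => mk_Iic_Ix c)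
  have h5 : Cardinal.prod (fun _ : C => (𝔠 : Cardinal.{0})) ≤ 𝔠 := by
    rw [Cardinal.prod_const']
    calc 𝔠 ^ #C ≤ 𝔠 ^ (ℵ₀ : Cardinal.{0}) :=
          Cardinal.power_le_power_left Cardinal.continuum_ne_zero
            (Cardinal.le_aleph0_iff_set_countable.2 hC)
      _ = 𝔠 := Cardinal.continuum_power_aleph0
  exact absurd (h3.trans_lt (h4.trans_le h5)) (lt_irrefl _)

/-- the data listed -/
abbrev Dat : Type := (ℕ → Ix) × (ℕ → T) × (ℕ → Ix →₀ ℤ)

theorem mk_T_le : #T ≤ 𝔠 := by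
  have h : Function.Surjective (fun r : ℝ => (r : T)) := fun s => QuotientAddGroup.mk_surjective s
  have := mk_le_of_surjective h
  rwa [mk_real] at this

theorem mk_Dat_le : #Dat ≤ 𝔠 := by
  have hpow : ∀ (A : Type), #A ≤ 𝔠 → #(ℕ → A) ≤ 𝔠 := by
    intro A hA
    rw [← Cardinal.power_def, Cardinal.mk_nat]
    exact (Cardinal.power_le_power_right hA).trans_eq Cardinal.continuum_power_aleph0
  have hinf : Infinite Ix := by
    rw [Cardinal.infinite_iff, mk_Ix]; exact aleph0_le_continuum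
  have h3 : #(Ix →₀ ℤ) ≤ 𝔠 := by
    rw [Cardinal.mk_finsupp_of_infinite, mk_Ix]
    refine max_le le_rfl ?_
    rw [Cardinal.mk_int]
    exact aleph0_le_continuum
  rw [Cardinal.mk_prod, Cardinal.mk_prod]
  simp only [Cardinal.lift_id]
  have hmul : ∀ a b : Cardinal.{0}, a ≤ 𝔠 → b ≤ 𝔠 → a * b ≤ 𝔠 := fun a b ha hb =>
    (mul_le_mul' ha hb).trans_eq (Cardinal.mul_eq_self aleph0_le_continuum)
  exact hmul _ _ (hpow _ mk_Ix.le) (hmul _ _ (hpow _ mk_T_le) (hpow _ h3))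

theorem exists_enum : ∃ e : Ix → Dat, ∀ (d : Dat) (δ : Ix), ∃ γ, δ < γ ∧ e γ = d := by
  have hinf : Infinite Ix := by
    rw [Cardinal.infinite_iff, mk_Ix]; exact aleph0_le_continuum
  have hne : Nonempty (Ix × Dat) := ⟨(Classical.arbitrary Ix, fun _ => Classical.arbitrary Ix,
    fun _ => 0, fun _ => 0)⟩
  have h1 : #(Ix × Dat) ≤ #Ix := by
    rw [Cardinal.mk_prod]
    simp only [Cardinal.lift_id]
    exact ((mul_le_mul' mk_Ix.le mk_Dat_le).trans_eq
      (Cardinal.mul_eq_self aleph0_le_continuum)).trans mk_Ix.ge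
  obtain ⟨g⟩ := (Cardinal.le_def _ _).1 h1
  have hs : Function.Surjective (Function.invFun g) := Function.invFun_surjective g.injective
  refine ⟨fun γ => (Function.invFun g γ).2, fun d δ => ?_⟩
  by_contra hcon
  push Not at hcon
  have h2 : Set.range (fun i : Ix => g (i, d)) ⊆ Set.Iic δ := by
    rintro _ ⟨i, rfl⟩
    by_contra hlt
    apply hcon (g (i, d)) (not_le.1 hlt)
    rw [Function.leftInverse_invFun g.injective]
  have h3 := mk_le_mk_of_subset h2
  have h4 : Function.Injective (fun i : Ix => g (i, d)) := by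
    intro a b hab
    have := g.injective hab
    exact (Prod.mk.inj this).1
  rw [Cardinal.mk_range_eq _ h4, mk_Ix] at h3
  exact absurd (h3.trans_lt (mk_Iic_Ix δ)) (lt_irrefl _)

/-- the entries of the matrix -/
noncomputable def Mat (f : Ix → (Ix → T) × (Ix → T)) (α i : Ix) : T :=
  if i < α then (f α).1 i else if α < i then (f i).2 α else 0

/-- the earlier entries -/
def Earlier (f : Ix → (Ix → T) × (Ix → T)) (γ : Ix) : Set T :=
  {t | ∃ α < γ, ∃ i < γ, t = Mat f α i}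

theorem mk_Earlier (f : Ix → (Ix → T) × (Ix → T)) (γ : Ix) : #(Earlier f γ) < 𝔠 := by
  have h : Earlier f γ ⊆ Set.range (fun p : Set.Iio γ × Set.Iio γ => Mat f p.1 p.2) := by
    rintro t ⟨α, hα, i, hi, rfl⟩
    exact ⟨(⟨α, hα⟩, ⟨i, hi⟩), rfl⟩
  refine (mk_le_mk_of_subset h).trans_lt (mk_range_le.trans_lt ?_)
  rw [Cardinal.mk_prod]
  simp only [Cardinal.lift_id]
  exact Cardinal.mul_lt_of_lt aleph0_le_continuum (mk_Iio_Ix γ) (mk_Iio_Ix γ)

theorem Earlier_congr {f f' : Ix → (Ix → T) × (Ix → T)} {γ : Ix} (h : ∀ m < γ, f m = f' m) :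
    Earlier f γ = Earlier f' γ := by
  have h1 : ∀ α < γ, ∀ i < γ, Mat f α i = Mat f' α i := by
    intro α hα i hi
    unfold Mat
    rw [h α hα, h i hi]
  ext t
  constructor
  · rintro ⟨α, hα, i, hi, rfl⟩
    exact ⟨α, hα, i, hi, h1 α hα i hi⟩
  · rintro ⟨α, hα, i, hi, rfl⟩
    exact ⟨α, hα, i, hi, (h1 α hα i hi).symm⟩

theorem exists_matrix0 : ∃ (e : Ix → Dat) (f : Ix → (Ix → T) × (Ix → T)),
    (∀ (d : Dat) (δ : Ix), ∃ γ, δ < γ ∧ e γ = d) ∧
    ∀ γ, (∀ n, (∀ m < n, (e γ).1 m ≠ (e γ).1 n) → (f γ).1 ((e γ).1 n) = (e γ).2.1 n) ∧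
      (∀ χ : Ix →₀ ℤ, χ ≠ 0 → (∀ i ∈ χ.support, i ∉ Set.range (e γ).1) →
        pair χ (f γ).1 ∉ AddSubgroup.closure (Earlier f γ)) ∧
      (∀ χ : Ix →₀ ℤ, χ ≠ 0 → pair χ (f γ).2 ∉ AddSubgroup.closure (Earlier f γ)) ∧
      (Function.Injective (e γ).2.2 →
        ¬ ∃ l, Tendsto (fun n => pair ((e γ).2.2 n) (f γ).2) atTop (𝓝 l)) := by
  classical
  obtain ⟨e, he⟩ := exists_enum
  let Good : Ix → (Ix → (Ix → T) × (Ix → T)) → (Ix → T) × (Ix → T) → Prop := fun γ y v =>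
    (∀ n, (∀ m < n, (e γ).1 m ≠ (e γ).1 n) → v.1 ((e γ).1 n) = (e γ).2.1 n) ∧
      (∀ χ : Ix →₀ ℤ, χ ≠ 0 → (∀ i ∈ χ.support, i ∉ Set.range (e γ).1) →
        pair χ v.1 ∉ AddSubgroup.closure (Earlier y γ)) ∧
      (∀ χ : Ix →₀ ℤ, χ ≠ 0 → pair χ v.2 ∉ AddSubgroup.closure (Earlier y γ)) ∧
      (Function.Injective (e γ).2.2 →
        ¬ ∃ l, Tendsto (fun n => pair ((e γ).2.2 n) v.2) atTop (𝓝 l))
  obtain ⟨f, hf⟩ := exists_rec Good (by
    rintro γ y y' v h ⟨h1, h2, h3, h4⟩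
    refine ⟨h1, ?_, ?_, h4⟩
    · rw [← Earlier_congr h]; exact h2
    · rw [← Earlier_congr h]; exact h3) (by
    intro γ y
    obtain ⟨x, hx⟩ := exists_indep (Earlier y γ) (mk_Earlier y γ) Ix mk_Ix.le
    obtain ⟨z, hz1, hz2⟩ : ∃ z : Ix → T,
        (∀ χ : Ix →₀ ℤ, χ ≠ 0 → pair χ z ∉ AddSubgroup.closure (Earlier y γ)) ∧
        (Function.Injective (e γ).2.2 →
          ¬ ∃ l, Tendsto (fun n => pair ((e γ).2.2 n) z) atTop (𝓝 l)) := by
      by_cases hs : Function.Injective (e γ).2.2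
      · obtain ⟨z, h1, h2⟩ := exists_col (Earlier y γ) (mk_Earlier y γ) Ix mk_Ix.le _ hs
        exact ⟨z, h1, fun _ => h2⟩
      · exact ⟨x, hx, fun h => absurd h hs⟩
    refine ⟨(fun i => if h : ∃ n, (e γ).1 n = i then (e γ).2.1 (Nat.find h) else x i, z),
      ?_, ?_, hz1, hz2⟩
    · intro n hn
      have h : ∃ k, (e γ).1 k = (e γ).1 n := ⟨n, rfl⟩
      simp only [dif_pos h]
      exact congrArg _ ((Nat.find_eq_iff h).2 ⟨rfl, fun m hm => hn m hm⟩)
    · intro χ hχ hsupp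
      have h1 : pair χ (fun i => if h : ∃ n, (e γ).1 n = i then (e γ).2.1 (Nat.find h) else x i) =
          pair χ x := by
        apply pair_congr
        intro i hi
        have h2 : ¬ ∃ n, (e γ).1 n = i := hsupp i hi
        simp only [dif_neg h2]
      rw [h1]
      exact hx χ hχ)
  exact ⟨e, f, he, hf⟩

end

end Pool.Agent.TH574.PZ
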